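import Pool.Agent.Run7.h19.HP.Iface

/-! Piece BETA of project HP (helper19). -/

set_option autoImplicit false

namespace Run7.h141.HP

open Run7.h19.HP

theorem step {k i : ℕ} (hG : S_G) (h : i < k) :
    (((2 ^ k - 1) * bb k (i + 1) : ℕ) : ℝ) ≤
      (1 / 2) * (1 - (1 / 2 : ℝ) ^ (k - i)) * (bb k i : ℝ) := by
  have h1 := hG k i h
  have h2 : ((2 ^ (k - i + 1) * ((2 ^ k - 1) * bb k (i + 1)) : ℕ) : ℝ)
      ≤ (((2 ^ (k - i) - 1) * bb k i : ℕ) : ℝ) := by exact_mod_cast h1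
  have h3 : ((2 ^ (k - i) - 1 : ℕ) : ℝ) = (2 : ℝ) ^ (k - i) - 1 := by
    rw [Nat.cast_sub Nat.one_le_two_pow]
    push_cast
    ring
  rw [Nat.cast_mul, Nat.cast_mul (2 ^ (k - i) - 1), h3] at h2
  have h4 : ((2 ^ (k - i + 1) : ℕ) : ℝ) = 2 * (2 : ℝ) ^ (k - i) := by
    push_cast
    rw [pow_succ]
    ring
  rw [h4] at h2
  have h5 : (0 : ℝ) < (2 : ℝ) ^ (k - i) := by positivity
  have h6 : (1 / 2 : ℝ) ^ (k - i) = 1 / (2 : ℝ) ^ (k - i) := by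
    rw [div_pow, one_pow]
  rw [h6]
  have h7 : (1 / 2 : ℝ) * (1 - 1 / (2 : ℝ) ^ (k - i)) * (bb k i : ℝ)
      = (((2 : ℝ) ^ (k - i) - 1) * (bb k i : ℝ)) / (2 * (2 : ℝ) ^ (k - i)) := by
    field_simp
  rw [h7, le_div_iff₀ (by positivity)]
  linarith

theorem t_BETA (hG : S_G) : S_BETA := by
  intro k i hi
  induction i, hi using Nat.le_induction with
  | base =>
    intro hk
    have : k - 2 + 1 = k - 1 := by omega
    rw [this]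
    simp
  | succ i hi ih =>
    intro hk
    have h1 := ih (by omega)
    have h2 := step hG (show i < k by omega)
    have e1 : k - (i + 1) + 1 = k - i := by omega
    have e2 : i + 1 - 2 = (i - 2) + 1 := by omega
    rw [e1, e2, Finset.prod_eq_prod_Ico_succ_bot (show k - i < k - 1 by omega)]
    have h3 : (((2 ^ k - 1) ^ (i - 2 + 1) * bb k (i + 1) : ℕ) : ℝ)
        = (((2 ^ k - 1) ^ (i - 2) : ℕ) : ℝ) * (((2 ^ k - 1) * bb k (i + 1) : ℕ) : ℝ) := by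
      rw [← Nat.cast_mul, pow_succ, mul_assoc]
    rw [h3]
    have hp : (0 : ℝ) ≤ (((2 ^ k - 1) ^ (i - 2) : ℕ) : ℝ) := Nat.cast_nonneg _
    have hq : (0 : ℝ) ≤ (1 / 2) * (1 - (1 / 2 : ℝ) ^ (k - i)) := by
      have : (1 / 2 : ℝ) ^ (k - i) ≤ 1 := pow_le_one₀ (by norm_num) (by norm_num)
      nlinarith
    rw [Nat.cast_mul] at h1
    calc (((2 ^ k - 1) ^ (i - 2) : ℕ) : ℝ) * (((2 ^ k - 1) * bb k (i + 1) : ℕ) : ℝ)
        ≤ (((2 ^ k - 1) ^ (i - 2) : ℕ) : ℝ) * ((1 / 2) * (1 - (1 / 2 : ℝ) ^ (k - i)) * (bb k i : ℝ)) :=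
          mul_le_mul_of_nonneg_left h2 hp
      _ = ((1 / 2) * (1 - (1 / 2 : ℝ) ^ (k - i))) * ((((2 ^ k - 1) ^ (i - 2) : ℕ) : ℝ) * (bb k i : ℝ)) := by
          ring
      _ ≤ ((1 / 2) * (1 - (1 / 2 : ℝ) ^ (k - i))) * ((bb k 2 : ℝ) * (1 / 2) ^ (i - 2) *
            ∏ e ∈ Finset.Ico (k - i + 1) (k - 1), (1 - (1 / 2 : ℝ) ^ e)) :=
          mul_le_mul_of_nonneg_left h1 hq
      _ = _ := by rw [pow_succ]; ring

end Run7.h141.HP
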