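import Pool.Agent.Run7.h19.HP.Iface

/-! Piece N5 of project HP (helper19). -/

set_option autoImplicit false

namespace Run7.h141.HP

open Run7.h19.HP Pool.Agent.H99.SubDeg

theorem fac_nonneg (e : ℕ) : (0 : ℝ) ≤ 1 - (1 / 2 : ℝ) ^ e := by
  have : (1 / 2 : ℝ) ^ e ≤ 1 := pow_le_one₀ (by norm_num) (by norm_num)
  linarith

theorem fac_le (e : ℕ) : 1 - (1 / 2 : ℝ) ^ e ≤ 1 := by
  have : (0 : ℝ) ≤ (1 / 2 : ℝ) ^ e := by positivity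
  linarith

theorem prod_le (k : ℕ) (hk : 10 ≤ k) :
    ∏ e ∈ Finset.Ico 4 (k - 1), (1 - (1 / 2 : ℝ) ^ e) ≤ 0.8836 := by
  rw [← Finset.prod_Ico_consecutive _ (show 4 ≤ 9 by norm_num) (show 9 ≤ k - 1 by omega)]
  have h1 : ∏ e ∈ Finset.Ico 4 9, (1 - (1 / 2 : ℝ) ^ e) ≤ 0.8836 := by
    norm_num [Finset.prod_Ico_succ_top]
  have h2 : ∏ e ∈ Finset.Ico 9 (k - 1), (1 - (1 / 2 : ℝ) ^ e) ≤ 1 :=
    Finset.prod_le_one (fun e _ => fac_nonneg e) (fun e _ => fac_le e)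
  have h0 : 0 ≤ ∏ e ∈ Finset.Ico 4 9, (1 - (1 / 2 : ℝ) ^ e) :=
    Finset.prod_nonneg (fun e _ => fac_nonneg e)
  calc _ ≤ (∏ e ∈ Finset.Ico 4 9, (1 - (1 / 2 : ℝ) ^ e)) * 1 :=
        mul_le_mul_of_nonneg_left h2 h0
    _ ≤ _ := by linarith

theorem low_bb (k : ℕ) (hk : 200 ≤ k) :
    (511.9 : ℝ) * ((2 : ℝ) ^ k) ^ 3 ≤ 21 * (bb k (k - 3) : ℝ) := by
  obtain ⟨N, hN⟩ : ∃ N : ℕ, N = (2 ^ (k + 4) - 1) * (2 ^ (k + 3) - 1) * (2 ^ (k + 2) - 1) := ⟨_, rfl⟩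
  have e : bb k (k - 3) = N / 21 := by
    have a1 : 2 * k + 1 - (k - 3) = k + 4 := by omega
    have a2 : k - (k - 3) = 3 := by omega
    unfold bb gb
    rw [a1, a2, hN]
    norm_num [Finset.prod_range_succ]
    rw [show k + 4 - 2 = k + 2 by omega]
  have d := Nat.div_add_mod N 21
  have m := Nat.mod_lt N (show 21 > 0 by norm_num)
  have h1 : N ≤ 21 * bb k (k - 3) + 20 := by rw [e]; omega
  have h2 : (N : ℝ) ≤ 21 * (bb k (k - 3) : ℝ) + 20 := by exact_mod_cast h1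
  have c : ∀ j : ℕ, ((2 ^ (k + j) - 1 : ℕ) : ℝ) = 2 ^ j * (2 : ℝ) ^ k - 1 := by
    intro j
    rw [Nat.cast_sub Nat.one_le_two_pow]
    push_cast
    rw [pow_add]
    ring
  have h3 : (N : ℝ) = (16 * (2 : ℝ) ^ k - 1) * (8 * (2 : ℝ) ^ k - 1) * (4 * (2 : ℝ) ^ k - 1) := by
    rw [hN]
    rw [Nat.cast_mul, Nat.cast_mul, c 4, c 3, c 2]
    norm_num
  have ht : (1000000 : ℝ) ≤ (2 : ℝ) ^ k := by
    calc (1000000 : ℝ) ≤ (2 : ℝ) ^ 20 := by norm_num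
      _ ≤ (2 : ℝ) ^ k := pow_le_pow_right₀ (by norm_num) (by omega)
  generalize (2 : ℝ) ^ k = t at h3 ht
  rw [h3] at h2
  have h4 : (511.9 : ℝ) * t ^ 3 + 20 ≤ (16 * t - 1) * (8 * t - 1) * (4 * t - 1) := by
    have h5 : (1000000 : ℝ) * t ^ 2 ≤ t * t ^ 2 := mul_le_mul_of_nonneg_right ht (by positivity)
    have h6 : (1000000 : ℝ) * t ≤ t * t := mul_le_mul_of_nonneg_right ht (by linarith)
    nlinarith
  linarith

theorem t_N5 (hB : S_BETA) : S_N5 := by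
  intro k hk
  have h1 := hB k (k - 3) (by omega) (by omega)
  have a1 : k - 3 - 2 = k - 5 := by omega
  have a2 : k - (k - 3) + 1 = 4 := by omega
  rw [a1, a2, Nat.cast_mul] at h1
  have h2 := prod_le k (by omega)
  have h3 := low_bb k hk
  have ht : (1000000 : ℝ) ≤ (2 : ℝ) ^ k := by
    calc (1000000 : ℝ) ≤ (2 : ℝ) ^ 20 := by norm_num
      _ ≤ (2 : ℝ) ^ k := pow_le_pow_right₀ (by norm_num) (by omega)
  have hp : ((2 ^ k - 1 : ℕ) : ℝ) = (2 : ℝ) ^ k - 1 := by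
    rw [Nat.cast_sub Nat.one_le_two_pow]
    push_cast
    ring
  have hp1 : ((2 ^ (k - 1) - 1 : ℕ) : ℝ) = (2 : ℝ) ^ k / 2 - 1 := by
    rw [Nat.cast_sub Nat.one_le_two_pow]
    push_cast
    have : (2 : ℝ) ^ k = 2 ^ (k - 1) * 2 := by rw [← pow_succ]; congr 1; omega
    rw [this]
    ring
  have e11 : (2 : ℝ) ^ (k - 11) = (2 : ℝ) ^ k / 2048 := by
    have : (2 : ℝ) ^ k = 2 ^ (k - 11) * 2 ^ 11 := by rw [← pow_add]; congr 1; omega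
    rw [this]
    norm_num
  have e5 : (1 / 2 : ℝ) ^ (k - 5) = 32 / (2 : ℝ) ^ k := by
    have : (2 : ℝ) ^ k = 2 ^ (k - 5) * 2 ^ 5 := by rw [← pow_add]; congr 1; omega
    rw [this, div_pow, one_pow]
    have : (2 : ℝ) ^ (k - 5) ≠ 0 := by positivity
    field_simp
    norm_num
  have e8 : (8 : ℝ) ^ k = ((2 : ℝ) ^ k) ^ 3 := by
    rw [← pow_mul, mul_comm, pow_mul]
    norm_num
  have e6 : (((2 ^ k - 1) ^ (k - 5) : ℕ) : ℝ) = ((2 : ℝ) ^ k - 1) ^ (k - 6) * ((2 : ℝ) ^ k - 1) := by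
    rw [Nat.cast_pow, hp, ← pow_succ]
    congr 1
    omega
  have key : ((2 ^ (k - 11) * (2 ^ k - 1) ^ (k - 5) * (55 * 8 ^ k)
    + (2 ^ (k - 1) - 1) * (2 ^ (k - 1) - 1) * (2 ^ k - 1) ^ (k - 6) * (55 * 8 ^ k) : ℕ) : ℝ)
    ≤ ((16 * bb k 2 : ℕ) : ℝ) := by
    rw [Nat.cast_add, Nat.cast_mul, Nat.cast_mul, Nat.cast_mul ((2 ^ (k - 1) - 1) * (2 ^ (k - 1) - 1) * (2 ^ k - 1) ^ (k - 6)),
      Nat.cast_mul ((2 ^ (k - 1) - 1) * (2 ^ (k - 1) - 1)), Nat.cast_mul (2 ^ (k - 1) - 1), hp1, e6,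
      Nat.cast_pow (2 ^ k - 1) (k - 6), hp]
    rw [e6] at h1
    have hY : (0 : ℝ) ≤ ((2 : ℝ) ^ k - 1) ^ (k - 6) := pow_nonneg (by linarith) _
    push_cast
    rw [e11, e8]
    rw [e5] at h1
    have hb2 : (0 : ℝ) ≤ (bb k 2 : ℝ) := Nat.cast_nonneg _
    have hbk : (0 : ℝ) ≤ (bb k (k - 3) : ℝ) := Nat.cast_nonneg _
    generalize ((2 : ℝ) ^ k - 1) ^ (k - 6) = Y at h1 hY ⊢
    generalize (2 : ℝ) ^ k = t at h1 h3 ht ⊢
    generalize (bb k 2 : ℝ) = b2 at h1 hb2 ⊢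
    generalize (bb k (k - 3) : ℝ) = B at h1 h3 hbk ⊢
    generalize ∏ e ∈ Finset.Ico 4 (k - 1), (1 - (1 / 2 : ℝ) ^ e) = c at h1 h2
    have ht0 : 0 < t := by linarith
    have hX : 0 ≤ Y * (t - 1) := mul_nonneg hY (by linarith)
    -- t * X * B ≤ 32 * 0.8836 * b2
    have k1 : t * (Y * (t - 1) * B) ≤ 32 * 0.8836 * b2 := by
      have : t * (Y * (t - 1) * B) ≤ t * (b2 * (32 / t) * c) := mul_le_mul_of_nonneg_left h1 ht0.le
      have e : t * (b2 * (32 / t) * c) = 32 * (b2 * c) := by field_simp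
      rw [e] at this
      have : b2 * c ≤ b2 * 0.8836 := mul_le_mul_of_nonneg_left h2 hb2
      linarith
    have k2 : t * (Y * (t - 1)) * (511.9 * t ^ 3) ≤ t * (Y * (t - 1)) * (21 * B) :=
      mul_le_mul_of_nonneg_left h3 (mul_nonneg ht0.le hX)
    have k3 : (t / 2 - 1) * (t / 2 - 1) * Y ≤ t / 4 * (Y * (t - 1)) := by
      have : (t / 2 - 1) * (t / 2 - 1) ≤ t / 4 * (t - 1) := by nlinarith
      calc (t / 2 - 1) * (t / 2 - 1) * Y ≤ t / 4 * (t - 1) * Y := mul_le_mul_of_nonneg_right this hY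
        _ = _ := by ring
    have k4 : (t / 2 - 1) * (t / 2 - 1) * Y * (55 * t ^ 3) ≤ t / 4 * (Y * (t - 1)) * (55 * t ^ 3) :=
      mul_le_mul_of_nonneg_right k3 (by positivity)
    have k5 : t * (Y * (t - 1)) * (511.9 * t ^ 3) ≤ 21 * (32 * 0.8836 * b2) := by
      calc _ ≤ t * (Y * (t - 1)) * (21 * B) := k2
        _ = 21 * (t * (Y * (t - 1) * B)) := by ring
        _ ≤ _ := by linarith
    have k6 : t / 2048 * (Y * (t - 1)) * (55 * t ^ 3) + t / 4 * (Y * (t - 1)) * (55 * t ^ 3)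
        = (55 * 513 / 2048 / 511.9) * (t * (Y * (t - 1)) * (511.9 * t ^ 3)) := by ring
    calc _ ≤ t / 2048 * (Y * (t - 1)) * (55 * t ^ 3) + t / 4 * (Y * (t - 1)) * (55 * t ^ 3) := by
          linarith
      _ = (55 * 513 / 2048 / 511.9) * (t * (Y * (t - 1)) * (511.9 * t ^ 3)) := k6
      _ ≤ (55 * 513 / 2048 / 511.9) * (21 * (32 * 0.8836 * b2)) :=
          mul_le_mul_of_nonneg_left k5 (by norm_num)
      _ ≤ 16 * b2 := by nlinarith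
  exact_mod_cast key

end Run7.h141.HP
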